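import Pool.Agent.H11.NZ.Targets

/-!
# Module DP of the board nz_modules (MP_9b2842_al)

The least subgroup covering the even permutations living on a set of at least five points is
perfect.
-/

set_option autoImplicit false

open Equiv (Perm)

namespace Pool.Agent.H56.NZ.DP

open Pool.Agent.H11.NZ Pool.Agent.H11.NY

theorem pf_dp : T_DP := by
  intro L Ω _ _ _ ψ X Δ D hΔ hD
  classical
  obtain ⟨⟨hDX, hDon, hDn, hDc⟩, hDmin⟩ := hD
  have hmem : ∀ σ : alternatingGroup Ω, σ ∈ (alternatingGroup.ofSubtype Δ).range ↔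
      ∀ ω : Ω, ω ∉ Δ → (σ : Perm Ω) ω = ω := by
    intro σ
    rw [alternatingGroup.mem_range_ofSubtype_iff]
    constructor
    · intro h ω hω
      by_contra hne
      exact hω (h (Equiv.Perm.mem_support.2 hne))
    · intro h ω hω
      by_contra hne
      exact (Equiv.Perm.mem_support.1 hω) (h ω hne)
  have hAA : ⁅(alternatingGroup.ofSubtype Δ).range, (alternatingGroup.ofSubtype Δ).range⁆ =
      (alternatingGroup.ofSubtype Δ).range := by
    rw [MonoidHom.range_eq_map, ← Subgroup.map_commutator, ← commutator_def,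
      commutator_alternatingGroup_eq_top (by simpa using hΔ)]
  have hDS : D.map ψ = (alternatingGroup.ofSubtype Δ).range := by
    apply le_antisymm
    · rintro σ hσ
      obtain ⟨d, hd, rfl⟩ := Subgroup.mem_map.1 hσ
      exact (hmem _).2 (hDon d hd)
    · intro σ hσ
      obtain ⟨d, hd, hdσ⟩ := hDc σ ((hmem σ).1 hσ)
      exact Subgroup.mem_map.2 ⟨d, hd, hdσ⟩
  have hCD : ⁅D, D⁆ ≤ D := Subgroup.commutator_le_self D
  have hcov : CovOn ψ X Δ ⁅D, D⁆ := by
    refine ⟨hCD.trans hDX, fun c hc => hDon c (hCD hc), fun x hx hxon c hc => ?_,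
      fun σ hσ => ?_⟩
    · have hmap : D.map (MulAut.conj x).toMonoidHom ≤ D := by
        rintro _ ⟨d, hd, rfl⟩
        exact hDn x hx hxon d hd
      have h1 : x * c * x⁻¹ ∈ ⁅D, D⁆.map (MulAut.conj x).toMonoidHom :=
        ⟨c, hc, rfl⟩
      rw [Subgroup.map_commutator] at h1
      exact Subgroup.commutator_mono hmap hmap h1
    · have h2 : (⁅D, D⁆ : Subgroup L).map ψ = (alternatingGroup.ofSubtype Δ).range := by
        rw [Subgroup.map_commutator, hDS, hAA]
      have h3 : σ ∈ (⁅D, D⁆ : Subgroup L).map ψ := by rw [h2]; exact (hmem σ).2 hσ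
      obtain ⟨d, hd, hdσ⟩ := Subgroup.mem_map.1 h3
      exact ⟨d, hd, hdσ⟩
  exact ⟨le_antisymm hCD (hDmin _ hcov), hDon⟩

end Pool.Agent.H56.NZ.DP
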