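import Pool.Agent.H11.NZ.Targets

/-!
# Module FX1 of the board nz_modules (MP_9b2842_al)
-/

set_option autoImplicit false

open Equiv (Perm)

namespace Pool.Agent.H56.NZ.FX1

open Pool.Agent.H11.NZ Pool.Agent.H11.NY

theorem pf_fx1 : T_XQ → T_RPX → T_SR → T_JX → T_CMX → T_CQX → T_FX1 := by
  intro hXQ hRP hSR hJX hCM hCQ e c ℓ₀
  obtain ⟨B₀, hB₀⟩ := hRP e
  obtain ⟨B₂, hB₂⟩ := hCM c ℓ₀
  refine ⟨max B₀ (max B₂ 1), ?_⟩
  intro L Ω _ _ _ _ ψ X hX hSch K₀ hK₀n hK₀ q p a h P hpair hqK hPc hPn hPp hhP hex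
  have hK₀k : K₀ ≤ ψ.ker := hK₀.trans inf_le_left
  have hK₀X : K₀ ≤ X := hK₀.trans inf_le_right
  have hψK : ∀ x ∈ K₀, ψ x = 1 := fun x hx => hK₀k hx
  let μ : L →* L ⧸ K₀ := QuotientGroup.mk' K₀
  have hμs : Function.Surjective μ := QuotientGroup.mk'_surjective K₀
  have hμ1 : ∀ x : L, μ x = 1 ↔ x ∈ K₀ := fun x => QuotientGroup.eq_one_iff x
  have hμker : μ.ker = K₀ := QuotientGroup.ker_mk' K₀
  let ψH : (L ⧸ K₀) →* alternatingGroup Ω := QuotientGroup.lift K₀ ψ hψK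
  have hψH : ∀ x : L, ψH (μ x) = ψ x := fun x => QuotientGroup.lift_mk' K₀ hψK x
  have hXH : XMin ψH (X.map μ) := (hXQ L (L ⧸ K₀) Ω ψ ψH μ hμs hψH X hX).1
  have hDH : ∀ (Δ : Finset Ω) (D : Subgroup L), DOn ψ X Δ D → DOn ψH (X.map μ) Δ (D.map μ) :=
    (hXQ L (L ⧸ K₀) Ω ψ ψH μ hμs hψH X hX).2
  have hXmem : ∀ x : L, μ x ∈ X.map μ → x ∈ X := by
    intro x hx
    obtain ⟨y, hy, hyx⟩ := Subgroup.mem_map.1 hx
    have h1 : y⁻¹ * x ∈ K₀ := by
      rw [← hμ1, map_mul, map_inv, hyx, inv_mul_cancel]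
    have h2 := X.mul_mem hy (hK₀X h1)
    rwa [mul_inv_cancel_left] at h2
  have hkmem : ∀ x : L, μ x ∈ ψH.ker → x ∈ ψ.ker := by
    intro x hx
    rw [MonoidHom.mem_ker, hψH] at hx
    exact hx
  -- the Schreier property of the quotient
  have hSchH : Sch (ψH.ker ⊓ X.map μ) := by
    intro T _ hT A f hA hf
    have hmem : ∀ x : L, x ∈ A.comap μ ⊓ X → μ x ∈ A := fun x hx => hx.1
    let F : (A.comap μ ⊓ X : Subgroup L) →* T :=
      { toFun := fun x => f ⟨μ x, hmem x x.2⟩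
        map_one' := by
          have h1 : (⟨μ ((1 : (A.comap μ ⊓ X : Subgroup L)) : L),
              hmem _ (1 : (A.comap μ ⊓ X : Subgroup L)).2⟩ : A) = 1 := by
            apply Subtype.ext
            simp
          rw [h1, map_one]
        map_mul' := by
          intro x y
          rw [← map_mul]
          congr 1 }
    have hF : ∀ x : (A.comap μ ⊓ X : Subgroup L), F x = f ⟨μ x, hmem x x.2⟩ := fun x => rfl
    refine hSch T hT (A.comap μ ⊓ X) F ?_ ?_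
    · intro x hx
      exact ⟨hkmem x (hA hx.1).1, hx.2⟩
    · intro t
      obtain ⟨⟨y, hy⟩, hyt⟩ := hf t
      obtain ⟨x, rfl⟩ := hμs y
      have hxX : x ∈ X := hXmem x (hA hy).2
      exact ⟨⟨x, hy, hxX⟩, by rw [hF]; exact hyt⟩
  -- the hypothesis of `JX`
  have hchief : ∀ ℓ : ℕ, ℓ.Prime → ∀ A B : Subgroup (L ⧸ K₀), A.Normal → B.Normal → B < A →
      A ≤ ψH.ker ⊓ X.map μ → IsPGroup ℓ A →
      (∀ M : Subgroup (L ⧸ K₀), M.Normal → B ≤ M → M ≤ A → M = B ∨ M = A) →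
      LocSecX ψH (X.map μ) e A B := by
    intro ℓ hℓ A B hA hB hBA hAk hpg hmin
    refine hB₀ (L ⧸ K₀) Ω ψH (X.map μ) hXH hSchH ℓ hℓ A B hA hB hBA hAk hpg hmin ?_
    intro r hr
    have hA1 : (A.comap μ).Normal := hA.comap μ
    have hB1 : (B.comap μ).Normal := hB.comap μ
    have hK₀B : K₀ ≤ B.comap μ := by
      intro x hx
      rw [Subgroup.mem_comap, (hμ1 x).2 hx]
      exact one_mem _
    have hB1A1 : B.comap μ ≤ A.comap μ := Subgroup.comap_mono hBA.le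
    have hB1A1' : B.comap μ < A.comap μ := by
      refine lt_of_le_of_ne hB1A1 ?_
      intro heq
      exact hBA.ne (Subgroup.comap_injective hμs heq)
    have hA1k : A.comap μ ≤ ψ.ker ⊓ X := by
      intro x hx
      have h1 := hAk (Subgroup.mem_comap.1 hx)
      exact ⟨hkmem x h1.1, hXmem x h1.2⟩
    have hA1p : ∀ x ∈ A.comap μ, ∃ k : ℕ, x ^ (ℓ ^ k) ∈ K₀ := by
      intro x hx
      obtain ⟨k, hk⟩ := hpg ⟨μ x, hx⟩
      refine ⟨k, ?_⟩
      rw [← hμ1, map_pow]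
      exact congrArg Subtype.val hk
    obtain ⟨i, hqr, hqℓ, hpℓ⟩ := hex ℓ hℓ (A.comap μ) hA1 (lt_of_le_of_lt hK₀B hB1A1')
      hA1k hA1p r hr
    obtain ⟨hq, hq5, hqe, hp, hpe, haq, hah, hhp, ha1, hha, hsupp⟩ := hpair i
    -- elements of the group generated by `a`, `h` in `K₀` are trivial
    have hinj : ∀ j k : ℕ, a i ^ j * h i ^ k ∈ K₀ → a i ^ j * h i ^ k = 1 := by
      intro j k hjk
      by_contra hne
      have h1 := hsupp j k hne
      rw [hψK _ hjk] at h1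
      simp at h1
    refine ⟨q i, p i, μ (a i), μ (h i), hqr, hqℓ, hpℓ, ⟨hq, hq5, hqe, hp, hpe, ?_, ?_, ?_,
      ?_, ?_, ?_⟩, ?_⟩
    · rw [← map_pow, haq, map_one]
    · rw [← map_mul, hah, map_mul]
    · rcases hhp with h1 | ⟨h1, h2⟩
      · left; rw [← map_pow, h1, map_one]
      · right; exact ⟨h1, by rw [← map_pow, h2]⟩
    · intro h1
      have h2 : a i ^ 1 * h i ^ 0 ∈ K₀ := by
        rw [pow_one, pow_zero, mul_one]; exact (hμ1 _).1 h1
      have h3 := hinj 1 0 h2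
      rw [pow_one, pow_zero, mul_one] at h3
      exact ha1 h3
    · intro h1
      obtain ⟨n, hn⟩ := (mem_powers_iff_mem_zpowers.2 h1)
      have hn' : μ (a i) ^ n = μ (h i) := hn
      have h2 : a i ^ (n * (q i - 1)) * h i ^ 1 ∈ K₀ := by
        rw [← hμ1, map_mul, map_pow, pow_one, ← hn', ← pow_add]
        have h3 : n * (q i - 1) + n = q i * n := by
          have := hq.pos
          calc n * (q i - 1) + n = n * (q i - 1 + 1) := by ring
            _ = n * q i := by rw [Nat.sub_add_cancel this]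
            _ = q i * n := by ring
        rw [h3, pow_mul, ← map_pow, haq, map_one, one_pow]
      have h3 := hinj _ _ h2
      apply hha
      rw [pow_one] at h3
      have h4 : h i = (a i ^ (n * (q i - 1)))⁻¹ := (eq_inv_of_mul_eq_one_right h3)
      rw [h4]
      exact inv_mem (Subgroup.npow_mem_zpowers _ _)
    · intro j k hjk
      have h1 : a i ^ j * h i ^ k ≠ 1 := by
        intro h2
        apply hjk
        rw [← map_pow, ← map_pow, ← map_mul, h2, map_one]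
      have h2 := hsupp j k h1
      rw [← map_pow, ← map_pow, ← map_mul, hψH]
      exact le_trans (le_max_left _ _) h2
    · intro x hx hxa
      obtain ⟨y, rfl⟩ := hμs x
      have h1 : a i * y * (a i)⁻¹ * y⁻¹ ∈ B.comap μ := by
        rw [Subgroup.mem_comap]
        simpa only [map_mul, map_inv] using hxa
      have h2 := hSR L K₀ (A.comap μ) (B.comap μ) hK₀B hB1A1 hA1 hB1 ℓ (q i) (p i) hℓ hq hp
        hqℓ hpℓ (hqK i) hA1p (a i) (h i) (P i) haq (hPc i) (hPn i) (hPp i) (hhP i) y hx h1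
      rw [Subgroup.mem_comap] at h2
      simpa only [map_mul, map_inv] using h2
  have he5 : 5 ≤ e := (hpair 0).2.1.trans (hpair 0).2.2.1
  rcases hJX (L ⧸ K₀) Ω ψH (X.map μ) hXH e he5 hchief with hmain | ⟨J₁, B₁, hJn, hBn, hBJ, hJk,
    hJJ, hcomm, hmin⟩
  · left
    intro Δ Δ' hdisj hΔ hΔ' D D' hD hD' d hd d' hd'
    have h1 := hmain Δ Δ' hdisj hΔ hΔ' _ _ (hDH Δ D hD) (hDH Δ' D' hD') (μ d)
      ⟨d, hd, rfl⟩ (μ d') ⟨d', hd', rfl⟩
    rw [Subgroup.mem_bot] at h1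
    rw [← hμ1]
    simpa only [map_mul, map_inv] using h1
  · right
    intro g hℓ hℓK hg hBg
    have h1 := hB₂ (L ⧸ K₀) Ω ψH (X.map μ) hXH hSchH J₁ B₁ hJn hBn hBJ hJk hJJ hcomm hmin hℓ
      (μ g) (by rw [← map_pow, hg, map_one])
      (by rw [hψH]; exact le_trans (le_trans (le_max_left _ _) (le_max_right _ _)) hBg)
    exact hCQ L (L ⧸ K₀) μ hμs ℓ₀ hℓ (by rw [hμker]; exact hℓK) g hg c h1

end Pool.Agent.H56.NZ.FX1
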